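import Pool.Agent.H207.TP.Stm

/-!
# Project TP (helper207), task ITD (helper227): iterates and their derivatives in the coordinate
`1 / (z - b)`
-/

set_option autoImplicit false

open Metric Set MeasureTheory Filter Topology Polynomial
open scoped OnePoint ENNReal

namespace Pool.Agent.H227.TP207

open Pool.Agent.H792R2.CE Pool.Agent.H207.TP

/-- one step in the plane -/
theorem step (h : S_REV) {d : ℕ} {b : ℂ} {T : ℂ[X]} (hT : T.natDegree ≤ d) {z : ℂ} (hz : z ≠ b) :
    rf (X ^ d) (DQ d b T) (M b z) = M b (T.eval z) := by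
  have h1 : (T - C b).natDegree ≤ d :=
    (natDegree_sub_le _ _).trans (max_le hT (by rw [natDegree_C]; exact Nat.zero_le _))
  have h2 := (h d b (T - C b) h1).2.1 z hz
  have h3 : M b z ≠ 0 := inv_ne_zero (sub_ne_zero.2 hz)
  show (X ^ d : ℂ[X]).eval (M b z) / (rev d b (T - C b)).eval (M b z) = _
  rw [h2, eval_pow, eval_X, eval_sub, eval_C, div_mul_eq_div_div, div_self (pow_ne_zero d h3),
    one_div]
  rfl

theorem iter (h : S_REV) {d : ℕ} {b : ℂ} {T : ℂ[X]} (hT : T.natDegree ≤ d) (z : ℂ) :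
    ∀ n : ℕ, (∀ j < n, (ev T)^[j] z ≠ b) →
      (rf (X ^ d) (DQ d b T))^[n] (M b z) = M b ((ev T)^[n] z) := by
  intro n
  induction n with
  | zero => exact fun _ => rfl
  | succ n ih =>
    intro hj
    rw [Function.iterate_succ_apply', Function.iterate_succ_apply',
      ih (fun j hjn => hj j (hjn.trans (Nat.lt_succ_self n))),
      step h hT (hj n (Nat.lt_succ_self n))]
    rfl

/-- the derivative of one step -/
theorem step_deriv (h : S_REV) {d : ℕ} {b : ℂ} {T : ℂ[X]} (hT : T.natDegree ≤ d) {y : ℂ}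
    (hy : y ≠ b) (hTy : T.eval y ≠ b) :
    HasDerivAt (rf (X ^ d) (DQ d b T))
      ((derivative T).eval y * ((y - b) / (T.eval y - b)) ^ 2) (M b y) := by
  obtain ⟨w, hw⟩ : ∃ w, w = M b y := ⟨_, rfl⟩
  rw [← hw]
  have hyb : y - b ≠ 0 := sub_ne_zero.2 hy
  have hw0 : w ≠ 0 := by
    rw [hw]
    exact inv_ne_zero hyb
  have hwi : w⁻¹ = y - b := by
    rw [hw]
    exact inv_inv _
  have hby : b + w⁻¹ = y := by rw [hwi]; ring
  have hne : T.eval (b + w⁻¹) - b ≠ 0 := by
    rw [hby]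
    exact sub_ne_zero.2 hTy
  have h1 : HasDerivAt (fun w : ℂ => b + w⁻¹) (-(w ^ 2)⁻¹) w := (hasDerivAt_inv hw0).const_add b
  have h2 : HasDerivAt (fun w : ℂ => T.eval (b + w⁻¹))
      ((derivative T).eval (b + w⁻¹) * (-(w ^ 2)⁻¹)) w := by
    have h := (T.hasDerivAt (b + w⁻¹)).comp (h₂ := fun x => T.eval x) w h1
    exact h
  have h3 : HasDerivAt (fun w : ℂ => T.eval (b + w⁻¹) - b)
      ((derivative T).eval (b + w⁻¹) * (-(w ^ 2)⁻¹)) w := h2.sub_const b
  have h4 : HasDerivAt (fun w : ℂ => (T.eval (b + w⁻¹) - b)⁻¹)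
      (-((derivative T).eval (b + w⁻¹) * (-(w ^ 2)⁻¹)) / (T.eval (b + w⁻¹) - b) ^ 2) w :=
    h3.fun_inv hne
  have h5 : rf (X ^ d) (DQ d b T) =ᶠ[𝓝 w] fun w : ℂ => (T.eval (b + w⁻¹) - b)⁻¹ := by
    filter_upwards [isOpen_ne.mem_nhds hw0] with u hu
    have hub : b + u⁻¹ ≠ b := by
      intro h6
      exact inv_ne_zero hu (add_eq_left.1 h6)
    have h7 : M b (b + u⁻¹) = u := by
      show (b + u⁻¹ - b)⁻¹ = u
      rw [add_sub_cancel_left, inv_inv]
    have h8 := step h hT hub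
    rw [h7] at h8
    exact h8
  have h9 := h4.congr_of_eventuallyEq h5
  have h10 : -((derivative T).eval (b + w⁻¹) * (-(w ^ 2)⁻¹)) / (T.eval (b + w⁻¹) - b) ^ 2 =
      (derivative T).eval y * ((y - b) / (T.eval y - b)) ^ 2 := by
    rw [hby, ← inv_pow, hwi, div_pow]
    ring
  rwa [h10] at h9

theorem ev_diff (T : ℂ[X]) (n : ℕ) : Differentiable ℂ ((ev T)^[n]) :=
  (show Differentiable ℂ (ev T) from T.differentiable).iterate n

theorem iter_deriv (h : S_REV) {d : ℕ} {b : ℂ} {T : ℂ[X]} (hT : T.natDegree ≤ d) {z : ℂ}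
    (hz : z ≠ b) : ∀ n : ℕ, (∀ j < n, (ev T)^[j] z ≠ b) → (ev T)^[n] z ≠ b →
      HasDerivAt ((rf (X ^ d) (DQ d b T))^[n])
        (deriv ((ev T)^[n]) z * ((z - b) / ((ev T)^[n] z - b)) ^ 2) (M b z) := by
  intro n
  induction n with
  | zero =>
    intro _ _
    rw [Function.iterate_zero, Function.iterate_zero, deriv_id, id_eq,
      div_self (sub_ne_zero.2 hz), one_pow, mul_one]
    exact hasDerivAt_id _
  | succ n ih =>
    intro hj hn
    have hj' : ∀ j < n, (ev T)^[j] z ≠ b := fun j hjn => hj j (hjn.trans (Nat.lt_succ_self n))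
    have hyn : (ev T)^[n] z ≠ b := hj n (Nat.lt_succ_self n)
    have h1 := ih hj' hyn
    obtain ⟨y, hy⟩ : ∃ y, y = (ev T)^[n] z := ⟨_, rfl⟩
    have hTy : (ev T)^[n + 1] z = T.eval y := by
      rw [Function.iterate_succ_apply', hy]
      rfl
    rw [hTy] at hn ⊢
    rw [← hy] at h1 hyn
    have h2 := step_deriv h hT hyn hn
    have h3 := iter h hT z n hj'
    rw [← hy] at h3
    rw [← h3] at h2
    have h4 := h2.comp (M b z) h1
    rw [← Function.iterate_succ'] at h4
    have h5 : deriv ((ev T)^[n + 1]) z = (derivative T).eval y * deriv ((ev T)^[n]) z := by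
      rw [Function.iterate_succ', deriv_comp z (show DifferentiableAt ℂ (ev T) _ from T.differentiable _) (ev_diff T n z), ← hy]
      congr 1
      exact T.deriv
    have h6 : (derivative T).eval y * ((y - b) / (T.eval y - b)) ^ 2 *
        (deriv ((ev T)^[n]) z * ((z - b) / (y - b)) ^ 2) =
        deriv ((ev T)^[n + 1]) z * ((z - b) / (T.eval y - b)) ^ 2 := by
      rw [h5]
      have h7 : y - b ≠ 0 := sub_ne_zero.2 hyn
      have h8 : T.eval y - b ≠ 0 := sub_ne_zero.2 hn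
      field_simp
    rw [← h6]
    exact h4

/-- **Task ITD** -/
theorem t_ITD (h : S_REV) : S_ITD := by
  intro d b T _ hT z n hj
  exact ⟨iter h hT z n hj, fun hn hz => (iter_deriv h hT hz n hj hn).deriv⟩

end Pool.Agent.H227.TP207
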